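import Pool.Agent.TH54.BU.Iter

/-!
# A group with small centralizers which is not an FNI-group (MP_5bd9ee_al)
-/

set_option autoImplicit false

namespace Pool.Agent.Results.MP_5bd9ee_al.NotFNI

open Pool.Agent.TH54.BU

/-- every centralizer of an element is finite or the whole group -/
def SmallCentralizers (G : Type) [Group G] : Prop :=
  ∀ g : G, {x : G | x * g = g * x}.Finite ∨ {x : G | x * g = g * x} = Set.univ

/-- for every subgroup `H` either `H` has finite index in its normalizer or `H` is normal -/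
def FNI (G : Type) [Group G] : Prop :=
  ∀ H : Subgroup G, H.relIndex (Subgroup.normalizer (H : Set G)) ≠ 0 ∨ H.Normal

/-- commuting elements of the free group of exponent `p` -/
theorem cent {p : ℕ} (hp : p.Prime) {I : Type} {A : Type} [Group A] (z : A)
    (φ : A →* FreeGroup I ⧸ powSub (FreeGroup I) p) (hs : Function.Surjective φ)
    (hk : φ.ker = Subgroup.zpowers z) (hz : ∀ a, a * z = z * a) (hinf : ¬ IsOfFinOrder z)
    (hpow : ∀ a : A, a ∉ Subgroup.zpowers z → ∃ k : ℤ, a ^ p = z ^ k ∧ ¬ (p : ℤ) ∣ k)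
    (x y : FreeGroup I ⧸ powSub (FreeGroup I) p) (hx : x ≠ 1) (hxy : y * x = x * y) :
    y ∈ Subgroup.zpowers x := by
  obtain ⟨a, rfl⟩ := hs x
  obtain ⟨b, rfl⟩ := hs y
  have hzc : ∀ (k : ℤ) (a : A), a * z ^ k = z ^ k * a := by
    intro k a
    exact (Commute.zpow_right (hz a) k)
  have hker : ∀ a : A, φ a = 1 ↔ a ∈ Subgroup.zpowers z := by
    intro a
    rw [← hk, MonoidHom.mem_ker]
  have ha : a ∉ Subgroup.zpowers z := fun h => hx ((hker a).2 h)
  obtain ⟨ka, hka, hpa⟩ := hpow a ha
  by_cases hb : b ∈ Subgroup.zpowers z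
  · rw [(hker b).2 hb]
    exact Subgroup.one_mem _
  obtain ⟨kb, hkb, hpb⟩ := hpow b hb
  -- the commutator is a power of z
  obtain ⟨c, hc⟩ : ∃ c : ℤ, b * a = z ^ c * (a * b) := by
    have h1 : φ (b * a * (a * b)⁻¹) = 1 := by
      rw [map_mul, map_inv, map_mul, map_mul, hxy, mul_inv_cancel]
    obtain ⟨c, hc⟩ := (hker _).1 h1
    have hc' : z ^ c = b * a * (a * b)⁻¹ := hc
    exact ⟨c, by rw [hc', inv_mul_cancel_right]⟩
  have hc2 : ∀ n : ℕ, b * a ^ n = z ^ (c * n) * (a ^ n * b) := by
    intro n
    induction n with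
    | zero => simp
    | succ n ih =>
      rw [pow_succ, ← mul_assoc, ih, mul_assoc, mul_assoc, hc, ← mul_assoc (a ^ n), hzc,
        mul_assoc, ← mul_assoc (z ^ _), ← zpow_add, mul_assoc]
      congr 2
      push_cast
      ring
  have hc0 : c = 0 := by
    have h1 := hc2 p
    rw [hka, hzc] at h1
    have h2 : z ^ (c * p) = 1 := by
      have h3 : z ^ (c * p) * (z ^ ka * b) = 1 * (z ^ ka * b) := by rw [← h1, one_mul]
      exact mul_right_cancel h3
    by_contra hne
    apply hinf
    rw [isOfFinOrder_iff_zpow_eq_one]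
    exact ⟨c * p, mul_ne_zero hne (by exact_mod_cast hp.ne_zero), h2⟩
  rw [hc0, zpow_zero, one_mul] at hc
  have hcom : Commute a b := hc.symm
  -- choose j with ka + j kb = 0 mod p
  have hcop : IsCoprime (kb : ℤ) (p : ℤ) := by
    rw [isCoprime_comm]
    exact (Prime.coprime_iff_not_dvd (Nat.prime_iff_prime_int.1 hp)).2 hpb
  obtain ⟨u, v, huv⟩ := hcop
  have h1 : (a * b ^ (-u * ka)) ^ p = z ^ (ka + (-u * ka) * kb) := by
    have h2 : Commute a (b ^ (-u * ka)) := hcom.zpow_right _
    rw [h2.mul_pow, hka, ← zpow_natCast (b ^ _), ← zpow_mul, mul_comm (-u * ka) (p : ℤ), zpow_mul,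
      zpow_natCast, hkb, ← zpow_mul, ← zpow_add, mul_comm kb]
  have h3 : a * b ^ (-u * ka) ∈ Subgroup.zpowers z := by
    by_contra hcon
    obtain ⟨k, hk1, hk2⟩ := hpow _ hcon
    rw [h1] at hk1
    apply hk2
    have h4 : k = ka + (-u * ka) * kb := by
      have h5 : z ^ (k - (ka + (-u * ka) * kb)) = 1 := by
        rw [zpow_sub, ← hk1, mul_inv_cancel]
      by_contra hne
      apply hinf
      rw [isOfFinOrder_iff_zpow_eq_one]
      exact ⟨_, sub_ne_zero.2 hne, h5⟩
    rw [h4]
    refine ⟨v * ka, ?_⟩
    have h6 : ka = ka * (u * kb + v * p) := by rw [huv, mul_one]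
    linear_combination h6
  -- hence `x = y ^ (u ka)`, with `p` not dividing `u ka`
  have h4 : φ a = φ b ^ (u * ka) := by
    have h5 := (hker _).2 h3
    rw [map_mul, map_zpow, neg_mul, zpow_neg] at h5
    exact mul_inv_eq_one.1 h5
  have hyp : φ b ^ (p : ℤ) = 1 := by
    rw [zpow_natCast, ← map_pow, hkb]
    exact (hker _).2 ⟨kb, rfl⟩
  have hnd : ¬ (p : ℤ) ∣ u * ka := by
    rintro ⟨w, hw⟩
    apply hx
    rw [h4, hw, zpow_mul, hyp, one_zpow]
  have hcop2 : IsCoprime (u * ka) (p : ℤ) := by
    rw [isCoprime_comm]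
    exact (Prime.coprime_iff_not_dvd (Nat.prime_iff_prime_int.1 hp)).2 hnd
  obtain ⟨s, t, hst⟩ := hcop2
  refine ⟨s, ?_⟩
  show φ a ^ s = φ b
  rw [h4, ← zpow_mul]
  have h6 : u * ka * s = 1 + p * (-t) := by linear_combination hst
  rw [h6, zpow_add, zpow_one, zpow_mul, hyp, one_zpow, mul_one]

/-- For every large prime `p` the free group of exponent `p` on countably many generators has finite
centralizers of nontrivial elements, but it has a subgroup `H` which is not normal and has infinite
index in its normalizer. -/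
theorem main : ∃ p0 : ℕ, ∀ p : ℕ, p.Prime → p0 ≤ p →
    SmallCentralizers (FreeGroup ℕ ⧸ powSub (FreeGroup ℕ) p) ∧
    ¬ FNI (FreeGroup ℕ ⧸ powSub (FreeGroup ℕ) p) := by
  obtain ⟨p0, hp0⟩ := burnside
  refine ⟨p0, fun p hp hpp => ?_⟩
  obtain ⟨A, _, z, φ, hs, hk, hz, hinf, hpow, hnc⟩ := hp0 p hp hpp ℕ
  have hexp : ∀ g : FreeGroup ℕ ⧸ powSub (FreeGroup ℕ) p, g ^ p = 1 := by
    intro g
    obtain ⟨g, rfl⟩ := QuotientGroup.mk_surjective g
    rw [← QuotientGroup.mk_pow, QuotientGroup.eq_one_iff]
    exact Subgroup.subset_normalClosure ⟨g, rfl⟩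
  constructor
  · intro g
    by_cases hg : g = 1
    · right
      ext x
      simp [hg]
    · left
      have h1 : {x | x * g = g * x} ⊆ (Subgroup.zpowers g : Set _) := by
        intro x hx
        exact cent hp z φ hs hk hz hinf hpow g x hg hx
      refine Set.Finite.subset ?_ h1
      have hfin : IsOfFinOrder g := isOfFinOrder_iff_pow_eq_one.2 ⟨p, hp.pos, hexp g⟩
      exact hfin.finite_zpowers
  · intro hF
    -- endomorphisms
    have hend : ∀ v : ℕ → FreeGroup ℕ ⧸ powSub (FreeGroup ℕ) p,
        ∃ e : (FreeGroup ℕ ⧸ powSub (FreeGroup ℕ) p) →* (FreeGroup ℕ ⧸ powSub (FreeGroup ℕ) p),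
        ∀ i, e (FreeGroup.of i : FreeGroup ℕ) = v i := by
      intro v
      refine ⟨QuotientGroup.lift _ (FreeGroup.lift v) ?_, ?_⟩
      · intro a ha
        have h1 : powSub (FreeGroup ℕ) p ≤ (FreeGroup.lift v).ker := by
          unfold powSub
          apply Subgroup.normalClosure_le_normal
          rintro _ ⟨g, rfl⟩
          show FreeGroup.lift v (g ^ p) = 1
          rw [map_pow, hexp]
        exact h1 ha
      · intro i
        show FreeGroup.lift v (FreeGroup.of i) = v i
        rw [FreeGroup.lift_apply_of]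
    let x : ℕ → FreeGroup ℕ ⧸ powSub (FreeGroup ℕ) p := fun i => (FreeGroup.of i : FreeGroup ℕ)
    obtain ⟨e, he⟩ := hend fun i => if i = 0 then 1 else x i
    obtain ⟨f, hf⟩ := hend fun i => if i = 1 then 1 else x i
    let H : Subgroup (FreeGroup ℕ ⧸ powSub (FreeGroup ℕ) p) :=
      { carrier := {g | e g = g ∧ f g = 1}
        mul_mem' := by
          rintro a b ⟨ha1, ha2⟩ ⟨hb1, hb2⟩
          exact ⟨by rw [map_mul, ha1, hb1], by rw [map_mul, ha2, hb2, one_mul]⟩
        one_mem' := ⟨map_one e, map_one f⟩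
        inv_mem' := by
          rintro a ⟨ha1, ha2⟩
          exact ⟨by rw [map_inv, ha1], by rw [map_inv, ha2, inv_one]⟩ }
    have memH : ∀ g, g ∈ H ↔ e g = g ∧ f g = 1 := fun _ => Iff.rfl
    have hx : ∀ i j : ℕ, i ≠ j → x i * x j ≠ x j * x i := hnc
    rcases hF H with h | h
    · apply h
      -- infinite index
      have hN : ∀ k, e k = k → k ∈ Subgroup.normalizer (H : Set _) := by
        intro k hk
        have hconj : ∀ k g, e k = k → g ∈ H → k * g * k⁻¹ ∈ H := by
          rintro k g hk ⟨h1, h2⟩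
          exact ⟨by rw [map_mul, map_mul, map_inv, hk, h1],
            by rw [map_mul, map_mul, map_inv, h2, mul_one, mul_inv_cancel]⟩
        rw [Subgroup.mem_normalizer_iff]
        intro g
        constructor
        · exact hconj k g hk
        · intro h
          have := hconj k⁻¹ _ (by rw [map_inv, hk]) h
          simpa [mul_assoc] using this
      have hxN : ∀ i : ℕ, x (i + 2) ∈ Subgroup.normalizer (H : Set _) := by
        intro i
        apply hN
        have := he (i + 2)
        rw [if_neg (by omega)] at this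
        exact this
      by_contra hne
      have hfi : (H.subgroupOf (Subgroup.normalizer (H : Set _))).FiniteIndex := ⟨hne⟩
      have hfin : Finite ((Subgroup.normalizer (H : Set _)) ⧸
          H.subgroupOf (Subgroup.normalizer (H : Set _))) :=
        Subgroup.finite_quotient_of_finiteIndex
      have hinj : Function.Injective (fun i : ℕ =>
          ((⟨x (i + 2), hxN i⟩ : Subgroup.normalizer (H : Set _)) :
            (Subgroup.normalizer (H : Set _)) ⧸
              H.subgroupOf (Subgroup.normalizer (H : Set _)))) := by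
        intro i j hij
        have h1 := QuotientGroup.eq.1 hij
        have h2 : (x (i + 2))⁻¹ * x (j + 2) ∈ H := h1
        have h3 := h2.2
        have h4 : f (x (i + 2)) = x (i + 2) := by
          have := hf (i + 2)
          rw [if_neg (by omega)] at this
          exact this
        have h5 : f (x (j + 2)) = x (j + 2) := by
          have := hf (j + 2)
          rw [if_neg (by omega)] at this
          exact this
        rw [map_mul, map_inv, h4, h5] at h3
        by_contra hne2
        have h6 : i + 2 ≠ j + 2 := by omega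
        apply hx _ _ h6
        rw [inv_mul_eq_one.1 h3]
      exact not_injective_infinite_finite _ hinj
    · have h1 : x 1 ∈ H := by
        refine ⟨?_, ?_⟩
        · have := he 1
          rw [if_neg (by omega)] at this
          exact this
        · have := hf 1
          rw [if_pos rfl] at this
          exact this
      have h2 := h.conj_mem _ h1 (x 0)
      have h3 := h2.1
      have h4 : e (x 0) = 1 := by
        have := he 0
        rw [if_pos rfl] at this
        exact this
      rw [map_mul, map_mul, map_inv, h4, h1.1, one_mul, inv_one, mul_one] at h3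
      apply hx 0 1 (by omega)
      exact (eq_mul_inv_iff_mul_eq.1 h3).symm

/-- Not every group in which all centralizers are finite or everything is an FNI-group. -/
theorem result :
    (∃ (G : Type) (_ : Group G), SmallCentralizers G ∧ ¬ FNI G) ∧
    ∃ p0 : ℕ, ∀ p : ℕ, p.Prime → p0 ≤ p →
      SmallCentralizers (FreeGroup ℕ ⧸ Subgroup.normalClosure
        (Set.range fun g : FreeGroup ℕ => g ^ p)) ∧
      ¬ FNI (FreeGroup ℕ ⧸ Subgroup.normalClosure
        (Set.range fun g : FreeGroup ℕ => g ^ p)) := by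
  obtain ⟨p0, hp0⟩ := main
  refine ⟨?_, p0, hp0⟩
  obtain ⟨p, hpp, hp⟩ := Nat.exists_infinite_primes p0
  exact ⟨_, _, hp0 p hp hpp⟩

end Pool.Agent.Results.MP_5bd9ee_al.NotFNI
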